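import Pool.Agent.Q207.JellDom

set_option autoImplicit false

open MeasureTheory Set Filter ComplexConjugate Pool.Agent.Q207.Jell
open scoped ENNReal Topology ContDiff

namespace Pool.Agent.Results.MP_c8ec9a_mp.NeumannDiverges

/-- `Λ` is a finite union of open balls with pairwise disjoint closures; such a set is a bounded
open set with smooth (in particular Lipschitz) boundary. -/
def IsBallUnion (Λ : Set E3) : Prop :=
  ∃ (ι : Type) (_ : Fintype ι) (x : ι → E3) (r : ι → ℝ), (∀ a, 0 < r a) ∧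
    (∀ a b, a ≠ b → Disjoint (Metric.closedBall (x a) (r a)) (Metric.closedBall (x b) (r b))) ∧
    Λ = ⋃ a, Metric.ball (x a) (r a)

/-- Regular sequences of domains `Λ_j`, `j ≥ 1`, for the background density `ρ`. -/
structure IsRegular (ρ : ℝ) (Λ : ℕ → Set E3) : Prop where
  isOpen : ∀ j, 1 ≤ j → IsOpen (Λ j)
  bounded : ∀ j, 1 ≤ j → Bornology.IsBounded (Λ j)
  neutral : ∀ j, 1 ≤ j → ρ * volume.real (Λ j) = j
  thin : ∀ h : ℝ, 0 < h → Tendsto (fun j => volume.real {x ∈ Λ j | ∃ y ∈ frontier (Λ j),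
    dist x y ≤ h} / volume.real (Λ j)) atTop (𝓝 0)
  fat : ∃ δ : ℝ, 0 < δ ∧ ∀ j, 1 ≤ j → ∃ (x : E3) (r : ℝ), Λ j ⊆ Metric.ball x r ∧
    δ * volume.real (Metric.ball x r) ≤ volume.real (Λ j)

/-- the properties of a single domain -/
structure GoodDomain (β ρ : ℝ) (j : ℕ) (Λ : Set E3) : Prop where
  opn : IsOpen Λ
  union : IsBallUnion Λ
  neutral : volume.real Λ = j / ρ
  radius : ∃ R : ℝ, 0 < R ∧ j / (2 * ρ * v1) ≤ R ^ 3 ∧ R ^ 3 ≤ j / (ρ * v1) ∧
    Λ ⊆ Metric.ball 0 (R + 4) ∧ v1 * R ^ 3 ≤ volume.real Λ ∧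
    ∀ h : ℝ, 0 < h → volume.real {x ∈ Λ | ∃ y ∈ frontier Λ, dist x y ≤ h}
      ≤ v1 * (3 * R ^ 2 * h) + 1 / (2 * ρ)
  trace : ∀ s : Stat, ((ρ * j : ℝ) : EReal) ≤ gN s β ρ Λ j

theorem exists_domain {β ρ : ℝ} (hβ : 0 < β) (hρ : 0 < ρ) {j : ℕ} (hj : 1 ≤ j) :
    ∃ Λ, GoodDomain β ρ j Λ := by
  have hv := v1_pos
  have hj' : (1 : ℝ) ≤ j := by exact_mod_cast hj
  have hj0 : (0 : ℝ) < j := by linarith
  have hC : 0 ≤ CC ρ j := by
    have := c0_nonneg
    unfold CC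
    positivity
  set M : ℕ := ⌈Real.exp (j + β * CC ρ j)⌉₊ with hMdef
  have hMge : Real.exp (j + β * CC ρ j) ≤ M := Nat.le_ceil _
  have hM0 : (0 : ℝ) < M := (Real.exp_pos _).trans_le hMge
  have hM : 1 ≤ M := by exact_mod_cast Nat.one_le_iff_ne_zero.2 (by
    intro h
    rw [h] at hM0
    simp at hM0)
  have hM1 : (1 : ℝ) ≤ M := by exact_mod_cast hM
  have hlog : j + β * CC ρ j ≤ Real.log M := by
    rw [Real.le_log_iff_exp_le hM0]
    exact hMge
  obtain ⟨ε, hε, hε1, hε2⟩ : ∃ ε : ℝ, 0 < ε ∧ ε ≤ 1 / (8 * M * j) ∧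
      j * M * ε ≤ 1 / (2 * ρ * v1) := by
    refine ⟨min (1 / (8 * M * j : ℝ)) (1 / (2 * ρ * v1) / (j * M)), by positivity, min_le_left _ _, ?_⟩
    have := min_le_right (1 / (8 * M * j : ℝ)) (1 / (2 * ρ * v1) / (j * M))
    calc (j : ℝ) * M * min (1 / (8 * M * j : ℝ)) (1 / (2 * ρ * v1) / (j * M))
        ≤ j * M * (1 / (2 * ρ * v1) / (j * M)) := mul_le_mul_of_nonneg_left this (by positivity)
      _ = 1 / (2 * ρ * v1) := by field_simp
  have hεle := (eps_le hj hM hε hε1).1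
  have hε3 : j * M * ε ^ 3 ≤ 1 / (2 * ρ * v1) := by
    refine le_trans ?_ hε2
    apply mul_le_mul_of_nonneg_left _ (by positivity)
    have : ε ^ 2 ≤ 1 := by nlinarith
    nlinarith
  have hy : 0 < (j : ℝ) / (ρ * v1) - j * M * ε ^ 3 ∧
      j / (2 * ρ * v1) ≤ (j : ℝ) / (ρ * v1) - j * M * ε ^ 3 := by
    have e : (j : ℝ) / (ρ * v1) = j / (2 * ρ * v1) + j * (1 / (2 * ρ * v1)) := by
      field_simp
      norm_num
    have h1 : 1 / (2 * ρ * v1) ≤ j * (1 / (2 * ρ * v1)) := by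
      have : 0 < 1 / (2 * ρ * v1) := by positivity
      nlinarith
    have h2 : 0 < (j : ℝ) / (2 * ρ * v1) := by positivity
    constructor <;> linarith
  obtain ⟨R, hR, hR3⟩ : ∃ R : ℝ, 0 < R ∧ R ^ 3 = (j : ℝ) / (ρ * v1) - j * M * ε ^ 3 := by
    refine ⟨((j : ℝ) / (ρ * v1) - j * M * ε ^ 3) ^ ((3 : ℕ) : ℝ)⁻¹,
      Real.rpow_pos_of_pos hy.1 _, ?_⟩
    exact Real.rpow_inv_natCast_pow hy.1.le (by norm_num)
  have hvol : volume.real (dom R ε j M) = j / ρ := by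
    rw [dom_volume hj hM hR hε hε1, hR3]
    field_simp
    ring
  have hpos : 0 ≤ j * M * ε ^ 3 := by positivity
  refine ⟨dom R ε j M, dom_open, ⟨Option (Fin j × Fin M), inferInstance, ctr R j M, rad R ε j M,
    rad_pos hj hM hR hε hε1, closedBall_disj hj hM hR hε hε1, rfl⟩, hvol,
    ⟨R, hR, by rw [hR3]; exact hy.2, by rw [hR3]; linarith, dom_subset hj hM hR hε hε1, ?_, ?_⟩, ?_⟩
  · rw [dom_volume hj hM hR hε hε1]
    apply mul_le_mul_of_nonneg_left _ hv.le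
    linarith
  · intro h hh
    refine (dom_layer hj hM hR hε hε1 h hh).trans ?_
    have : v1 * (j * M * ε ^ 3) ≤ v1 * (1 / (2 * ρ * v1)) := mul_le_mul_of_nonneg_left hε3 hv.le
    have e : v1 * (1 / (2 * ρ * v1)) = 1 / (2 * ρ) := by field_simp
    linarith
  · intro s
    have h1 := gN_ge (dom_rooms hj hM hR hε hε1 hρ hvol) s β hβ (by omega)
      (by rw [hvol]; positivity)
    refine le_trans ?_ h1
    rw [EReal.coe_le_coe_iff, hvol, le_div_iff₀ (by positivity)]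
    have e : ρ * j * (j / ρ) = (j : ℝ) * j := by field_simp
    rw [e]
    have h2 : (j : ℝ) * (j + β * CC ρ j) ≤ j * Real.log M :=
      mul_le_mul_of_nonneg_left hlog hj0.le
    have h3 : 0 ≤ β * CC ρ j := by positivity
    nlinarith

/-- **Disproof of Q1.** For all `β, ρ > 0` there is a regular sequence of domains (finite unions of
balls with disjoint closures) along which, for bosons and for fermions, `g^N(Λ_j) → +∞`. In
particular `g^N(Λ_j)` does not converge to any real number. -/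
theorem result (β ρ : ℝ) (hβ : 0 < β) (hρ : 0 < ρ) :
    ∃ Λ : ℕ → Set E3, IsRegular ρ Λ ∧ (∀ j, 1 ≤ j → IsBallUnion (Λ j)) ∧
      ∀ s : Stat, Tendsto (fun j => gN s β ρ (Λ j) j) atTop (𝓝 ⊤) ∧
        ∀ g : ℝ, ¬ Tendsto (fun j => gN s β ρ (Λ j) j) atTop (𝓝 (g : EReal)) := by
  have hv := v1_pos
  have hex : ∀ j : ℕ, ∃ Λ : Set E3, 1 ≤ j → GoodDomain β ρ j Λ := by
    intro j
    by_cases hj : 1 ≤ j
    · obtain ⟨Λ, hΛ⟩ := exists_domain hβ hρ hj
      exact ⟨Λ, fun _ => hΛ⟩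
    · exact ⟨∅, fun h => absurd h hj⟩
  choose Λ hΛ using hex
  have htend : ∀ s : Stat, Tendsto (fun j => gN s β ρ (Λ j) j) atTop (𝓝 ⊤) := by
    intro s
    rw [EReal.tendsto_nhds_top_iff_real]
    intro x
    filter_upwards [tendsto_natCast_atTop_atTop.eventually_gt_atTop (x / ρ),
      eventually_ge_atTop 1] with j h1 h2
    refine lt_of_lt_of_le ?_ ((hΛ j h2).trace s)
    rw [EReal.coe_lt_coe_iff]
    rw [div_lt_iff₀ hρ] at h1
    linarith
  refine ⟨Λ, ⟨fun j hj => (hΛ j hj).opn, ?_, ?_, ?_, ?_⟩, fun j hj => (hΛ j hj).union, fun s =>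
    ⟨htend s, ?_⟩⟩
  · intro j hj
    obtain ⟨R, -, -, -, h, -⟩ := (hΛ j hj).radius
    exact Metric.isBounded_ball.subset h
  · intro j hj
    rw [(hΛ j hj).neutral]
    field_simp
  · intro h hh
    -- the boundary layer
    have hR : ∀ j : ℕ, ∃ R : ℝ, 1 ≤ j → (0 < R ∧ j / (2 * ρ * v1) ≤ R ^ 3 ∧ R ^ 3 ≤ j / (ρ * v1) ∧
        volume.real {x ∈ Λ j | ∃ y ∈ frontier (Λ j), dist x y ≤ h}
          ≤ v1 * (3 * R ^ 2 * h) + 1 / (2 * ρ)) := by
      intro j
      by_cases hj : 1 ≤ j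
      · obtain ⟨R, h1, h2, h3, -, -, h6⟩ := (hΛ j hj).radius
        exact ⟨R, fun _ => ⟨h1, h2, h3, h6 h hh⟩⟩
      · exact ⟨0, fun h => absurd h hj⟩
    choose R hR using hR
    have hR2 : Tendsto (fun j : ℕ => (R j) ^ 2 / j) atTop (𝓝 0) := by
      rw [tendsto_order]
      constructor
      · intro a ha
        filter_upwards [eventually_ge_atTop 1] with j hj
        have : 0 ≤ (R j) ^ 2 / j := by positivity
        linarith
      · intro δ hδ
        -- `(R² / j)³ ≤ K / j`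
        have hlim : Tendsto (fun j : ℕ => (1 / (ρ * v1)) ^ 2 / (j : ℝ)) atTop (𝓝 0) :=
          tendsto_const_div_atTop_nhds_zero_nat _
        filter_upwards [eventually_ge_atTop 1, hlim.eventually (gt_mem_nhds (pow_pos hδ 3))]
          with j hj hlt
        obtain ⟨h1, h2, h3, -⟩ := hR j hj
        have hj0 : (0 : ℝ) < j := by exact_mod_cast hj
        have hcube : ((R j) ^ 2 / j) ^ 3 < δ ^ 3 := by
          refine lt_of_le_of_lt ?_ hlt
          have e : ((R j) ^ 2 / j) ^ 3 = (R j ^ 3) ^ 2 / j ^ 3 := by ring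
          rw [e]
          have h5 : (R j ^ 3) ^ 2 ≤ (j / (ρ * v1)) ^ 2 := pow_le_pow_left₀ (by positivity) h3 2
          calc (R j ^ 3) ^ 2 / (j : ℝ) ^ 3 ≤ (j / (ρ * v1)) ^ 2 / j ^ 3 :=
                div_le_div_of_nonneg_right h5 (by positivity)
            _ = (1 / (ρ * v1)) ^ 2 / (j : ℝ) := by field_simp
        exact lt_of_pow_lt_pow_left₀ 3 hδ.le hcube
    have hone : Tendsto (fun j : ℕ => (1 : ℝ) / j) atTop (𝓝 0) :=
      tendsto_const_div_atTop_nhds_zero_nat 1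
    have hlim : Tendsto (fun j : ℕ => ρ * (v1 * (3 * h)) * ((R j) ^ 2 / j) + 1 / 2 * (1 / (j : ℝ)))
        atTop (𝓝 0) := by
      have := (hR2.const_mul (ρ * (v1 * (3 * h)))).add (hone.const_mul (1 / 2))
      simpa using this
    refine squeeze_zero' (Eventually.of_forall fun j => by positivity) ?_ hlim
    filter_upwards [eventually_ge_atTop 1] with j hj
    obtain ⟨h1, h2, h3, h4⟩ := hR j hj
    have hj0 : (0 : ℝ) < j := by exact_mod_cast hj
    rw [(hΛ j hj).neutral, div_le_iff₀ (by positivity)]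
    refine h4.trans (le_of_eq ?_)
    field_simp
  · -- volume of the enclosing ball
    obtain ⟨r₀, hr₀, hr₀3⟩ : ∃ r : ℝ, 0 < r ∧ r ^ 3 = 1 / (2 * ρ * v1) := by
      refine ⟨(1 / (2 * ρ * v1)) ^ ((3 : ℕ) : ℝ)⁻¹, Real.rpow_pos_of_pos (by positivity) _, ?_⟩
      exact Real.rpow_inv_natCast_pow (by positivity) (by norm_num)
    refine ⟨((1 + 4 / r₀) ^ 3)⁻¹, by positivity, fun j hj => ?_⟩
    obtain ⟨R, h1, h2, -, h4, h5, -⟩ := (hΛ j hj).radius
    refine ⟨0, R + 4, h4, ?_⟩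
    rw [vol_ball _ (by linarith)]
    have hj0 : (1 : ℝ) ≤ j := by exact_mod_cast hj
    have hrR : r₀ ≤ R := by
      apply le_of_pow_le_pow_left₀ (n := 3) (by norm_num) h1.le
      rw [hr₀3]
      refine le_trans ?_ h2
      exact div_le_div_of_nonneg_right hj0 (by positivity)
    have h6 : R + 4 ≤ (1 + 4 / r₀) * R := by
      have : 4 / r₀ * r₀ ≤ 4 / r₀ * R := mul_le_mul_of_nonneg_left hrR (by positivity)
      rw [div_mul_cancel₀ _ hr₀.ne'] at this
      linarith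
    have h7 : (R + 4) ^ 3 ≤ ((1 + 4 / r₀) * R) ^ 3 := pow_le_pow_left₀ (by linarith) h6 3
    calc ((1 + 4 / r₀) ^ 3)⁻¹ * ((R + 4) ^ 3 * v1)
        ≤ ((1 + 4 / r₀) ^ 3)⁻¹ * (((1 + 4 / r₀) * R) ^ 3 * v1) := by gcongr
      _ = v1 * R ^ 3 := by field_simp
      _ ≤ _ := h5
  · intro g hg
    have := tendsto_nhds_unique (htend s) hg
    exact EReal.coe_ne_top g this.symm

end Pool.Agent.Results.MP_c8ec9a_mp.NeumannDiverges
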